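import Mathlib

set_option autoImplicit false

/-!
# Minimal strongly biconnected digraphs have at most `2n - 3` arcs

Ear decomposition: if `W` has at least two vertices and is not everything, then there is a directed
path of length at least two that starts and ends at distinct vertices of `W` and is otherwise
outside `W`.  Otherwise the part outside `W` is attached at single vertices, which are then
articulation points of the underlying graph.
-/

namespace Pool.Agent.Results.MP_5e4462_co.TwoNMinusThree

variable {V : Type} [Fintype V] [DecidableEq V]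

/-- The digraph with arc set `A` is strongly connected. -/
def Strong (A : Finset (V × V)) : Prop :=
  ∀ u v : V, Relation.ReflTransGen (fun x y => (x, y) ∈ A) u v

/-- The underlying simple graph. -/
def Und (A : Finset (V × V)) : SimpleGraph V where
  Adj x y := x ≠ y ∧ ((x, y) ∈ A ∨ (y, x) ∈ A)
  symm := ⟨fun _ _ h => ⟨h.1.symm, h.2.symm⟩⟩
  loopless := ⟨fun _ h => h.1 rfl⟩

/-- Strongly biconnected: strongly connected, and deleting any single vertex does not disconnect
the underlying graph. -/
def StronglyBiconnected (A : Finset (V × V)) : Prop :=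
  Strong A ∧ ∀ w : V, ((Und A).induce ({w}ᶜ : Set V)).Preconnected

/-- Minimal strongly biconnected digraphs. -/
def MinimalSB (A : Finset (V × V)) : Prop :=
  StronglyBiconnected A ∧ ∀ e ∈ A, ¬ StronglyBiconnected (A.erase e)

/-- Reachability in the underlying graph avoiding `w`. -/
def R (A : Finset (V × V)) (w : V) : V → V → Prop :=
  Relation.ReflTransGen (fun a b => a ≠ w ∧ b ≠ w ∧ ((a, b) ∈ A ∨ (b, a) ∈ A))

omit [Fintype V] [DecidableEq V] in
theorem pre_iff (A : Finset (V × V)) (hl : ∀ v, (v, v) ∉ A) (w : V) :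
    ((Und A).induce ({w}ᶜ : Set V)).Preconnected ↔ ∀ x y : V, x ≠ w → y ≠ w → R A w x y := by
  constructor
  · intro h x y hx hy
    have h1 := h ⟨x, hx⟩ ⟨y, hy⟩
    rw [SimpleGraph.reachable_iff_reflTransGen] at h1
    have key : ∀ z : ({w}ᶜ : Set V),
        Relation.ReflTransGen ((Und A).induce ({w}ᶜ : Set V)).Adj ⟨x, hx⟩ z → R A w x z.1 := by
      intro z hz
      induction hz with
      | refl => exact Relation.ReflTransGen.refl
      | @tail b c _ hbc ih => exact ih.tail ⟨b.2, c.2, hbc.2⟩
    exact key _ h1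
  · intro h x y
    have h1 := h x.1 y.1 x.2 y.2
    have key : ∀ z : V, R A w x.1 z → ∀ hz : z ≠ w,
        ((Und A).induce ({w}ᶜ : Set V)).Reachable x ⟨z, hz⟩ := by
      intro z hz
      induction hz with
      | refl => intro _; exact SimpleGraph.Reachable.refl _
      | @tail b c _ hbc ih =>
        intro hc
        refine (ih hbc.1).trans (SimpleGraph.Adj.reachable ?_)
        refine ⟨?_, hbc.2.2⟩
        intro hbc'
        change b = c at hbc'
        rcases hbc.2.2 with h | h
        · exact hl _ (hbc' ▸ h)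
        · exact hl _ (hbc' ▸ h)
    exact key y.1 h1 y.2

omit [Fintype V] [DecidableEq V] in
theorem R_symm {A : Finset (V × V)} {w x y : V} (h : R A w x y) : R A w y x := by
  induction h with
  | refl => exact Relation.ReflTransGen.refl
  | @tail b c _ hbc ih =>
    exact Relation.ReflTransGen.head ⟨hbc.2.1, hbc.1, hbc.2.2.symm⟩ ih

omit [Fintype V] [DecidableEq V] in
theorem R_mono {A B : Finset (V × V)} (hAB : A ⊆ B) {w x y : V} (h : R A w x y) : R B w x y :=
  Relation.ReflTransGen.mono
    (fun _ _ h => ⟨h.1, h.2.1, h.2.2.imp (fun h => hAB h) (fun h => hAB h)⟩) _ _ h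

omit [Fintype V] [DecidableEq V] in
/-- A walk as a function on the naturals. -/
theorem exists_fun {r : V → V → Prop} {a b : V} (h : Relation.ReflTransGen r a b) :
    ∃ (m : ℕ) (f : ℕ → V), f 0 = a ∧ f m = b ∧ ∀ i < m, r (f i) (f (i + 1)) := by
  induction h with
  | refl => exact ⟨0, fun _ => a, rfl, rfl, fun i hi => absurd hi (Nat.not_lt_zero i)⟩
  | @tail b c _ hbc ih =>
    obtain ⟨m, f, h0, hm, hf⟩ := ih
    refine ⟨m + 1, fun l => if l ≤ m then f l else c, by simp [h0], by simp, ?_⟩
    intro i hi
    rcases Nat.lt_or_ge i m with h | h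
    · have h1 : i ≤ m := h.le
      have h2 : i + 1 ≤ m := h
      simp only [h1, h2, if_true]
      exact hf i h
    · have h1 : i = m := by omega
      subst h1
      simp only [le_refl, if_true, hm]
      simpa using hbc

/-- the shortcut of a walk -/
def cut (f : ℕ → V) (i j : ℕ) : ℕ → V := fun l => if l ≤ i then f l else f (l + (j - i))

omit [Fintype V] [DecidableEq V] in
theorem cut_step {r : V → V → Prop} {f : ℕ → V} {m i j : ℕ} (hf : ∀ l < m, r (f l) (f (l + 1)))
    (hij : i < j) (hjm : j ≤ m) (he : f i = f j) :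
    ∀ l < m - (j - i), r (cut f i j l) (cut f i j (l + 1)) := by
  intro l hl
  unfold cut
  rcases Nat.lt_trichotomy l i with h | h | h
  · rw [if_pos h.le, if_pos (by omega)]
    exact hf l (by omega)
  · subst h
    rw [if_pos le_rfl, if_neg (by omega), he]
    have := hf j (by omega)
    have e : l + 1 + (j - l) = j + 1 := by omega
    rwa [e]
  · rw [if_neg (by omega), if_neg (by omega)]
    have := hf (l + (j - i)) (by omega)
    have e : l + 1 + (j - i) = l + (j - i) + 1 := by omega
    rwa [e]

omit [Fintype V] [DecidableEq V] in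
theorem cut_last {f : ℕ → V} {m i j : ℕ} (hij : i < j) (hjm : j ≤ m) (he : f i = f j) :
    cut f i j (m - (j - i)) = f m := by
  unfold cut
  rcases Nat.lt_or_ge j m with h | h
  · rw [if_neg (by omega)]
    congr 1; omega
  · have : j = m := by omega
    subst this
    rw [if_pos (by omega)]
    have : j - (j - i) = i := by omega
    rw [this, he]

omit [Fintype V] [DecidableEq V] in
/-- Open ears exist. -/
theorem ear (A : Finset (V × V)) (hS : Strong A)
    (hB : ∀ w x y : V, x ≠ w → y ≠ w → R A w x y) (W : Finset V) (a b : V) (ha : a ∈ W) (hb : b ∈ W)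
    (hab : a ≠ b) (v0 : V) (hv0 : v0 ∉ W) :
    ∃ (m : ℕ) (f : ℕ → V), 2 ≤ m ∧ f 0 ∈ W ∧ f m ∈ W ∧ (∀ i, 0 < i → i < m → f i ∉ W) ∧
      (∀ i < m, (f i, f (i + 1)) ∈ A) ∧ (∀ i j, i < j → j ≤ m → f i ≠ f j) := by
  classical
  let r : V → V → Prop := fun x y => (x, y) ∈ A ∧ (x ∉ W ∨ y ∉ W)
  let P : ℕ → Prop := fun m => ∃ f : ℕ → V, f 0 ∈ W ∧ f m ∈ W ∧ f 0 ≠ f m ∧
    ∀ i < m, r (f i) (f (i + 1))
  have hex : ∃ m, P m := by
    by_contra hno
    push Not at hno
    have noear : ∀ w ∈ W, ∀ w' ∈ W, Relation.ReflTransGen r w w' → w = w' := by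
      intro w hw w' hw' h
      by_contra hne
      obtain ⟨m, f, h0, hm, hf⟩ := exists_fun h
      exact hno m ⟨f, by rw [h0]; exact hw, by rw [hm]; exact hw', by rw [h0, hm]; exact hne, hf⟩
    have F : ∀ v, v ∉ W → ∃ w ∈ W, Relation.ReflTransGen r w v := by
      intro v hv
      have key : ∀ z, Relation.ReflTransGen (fun x y => (x, y) ∈ A) a z →
          ∃ w ∈ W, Relation.ReflTransGen r w z := by
        intro z hz
        induction hz with
        | refl => exact ⟨a, ha, Relation.ReflTransGen.refl⟩
        | @tail b c _ hbc ih =>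
          by_cases hc : c ∈ W
          · exact ⟨c, hc, Relation.ReflTransGen.refl⟩
          · obtain ⟨w, hw, h⟩ := ih
            exact ⟨w, hw, h.tail ⟨hbc, Or.inr hc⟩⟩
      exact key v (hS a v)
    have G : ∀ v, v ∉ W → ∃ w ∈ W, Relation.ReflTransGen r v w := by
      intro v hv
      have key : ∀ z, Relation.ReflTransGen (fun x y => (x, y) ∈ A) z a →
          ∃ w ∈ W, Relation.ReflTransGen r z w := by
        intro z hz
        induction hz using Relation.ReflTransGen.head_induction_on with
        | refl => exact ⟨a, ha, Relation.ReflTransGen.refl⟩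
        | @head b c hbc _ ih =>
          by_cases hc : b ∈ W
          · exact ⟨b, hc, Relation.ReflTransGen.refl⟩
          · obtain ⟨w, hw, h⟩ := ih
            exact ⟨w, hw, h.head ⟨hbc, Or.inl hc⟩⟩
      exact key v (hS v a)
    obtain ⟨w0, hw0, h0⟩ := F v0 hv0
    obtain ⟨w1, hw1, hw10⟩ : ∃ w1 ∈ W, w1 ≠ w0 := by
      by_cases h : a = w0
      · exact ⟨b, hb, fun h' => hab (h.trans h'.symm)⟩
      · exact ⟨a, ha, h⟩
    have key : ∀ z, R A w0 v0 z → z ∉ W ∧ Relation.ReflTransGen r w0 z := by
      intro z hz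
      induction hz with
      | refl => exact ⟨hv0, h0⟩
      | @tail x y _ hxy ih =>
        obtain ⟨hx, hxF⟩ := ih
        obtain ⟨w', hw', hxG⟩ := G x hx
        have e := noear _ hw0 _ hw' (hxF.trans hxG)
        subst e
        have hy : y ∉ W := by
          intro hy
          rcases hxy.2.2 with h | h
          · exact hxy.2.1 (noear _ hw0 _ hy (hxF.tail ⟨h, Or.inl hx⟩)).symm
          · exact hxy.2.1 (noear _ hy _ hw0
              (Relation.ReflTransGen.head ⟨h, Or.inr hx⟩ hxG))
        refine ⟨hy, ?_⟩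
        rcases hxy.2.2 with h | h
        · exact hxF.tail ⟨h, Or.inl hx⟩
        · have hyG : Relation.ReflTransGen r y w0 := hxG.head ⟨h, Or.inr hx⟩
          obtain ⟨w'', hw'', hyF⟩ := F y hy
          have e := noear _ hw'' _ hw0 (hyF.trans hyG)
          rwa [e] at hyF
    exact (key w1 (hB w0 v0 w1 (fun h => hv0 (h ▸ hw0)) hw10)).1 hw1
  obtain ⟨m, hm⟩ : ∃ m, P m ∧ ∀ m' < m, ¬ P m' :=
    ⟨Nat.find hex, Nat.find_spec hex, fun m' h => Nat.find_min hex h⟩
  obtain ⟨⟨f, hf0, hfm, hne, hf⟩, hmin⟩ := hm
  have hm2 : 2 ≤ m := by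
    by_contra h
    have : m = 0 ∨ m = 1 := by omega
    rcases this with h | h
    · subst h; exact hne rfl
    · subst h
      rcases (hf 0 (by omega)).2 with h | h
      · exact h hf0
      · exact h hfm
  have hout : ∀ i, 0 < i → i < m → f i ∉ W := by
    intro i hi him hW
    by_cases h : f 0 = f i
    · refine hmin (m - i) (by omega) ⟨fun l => f (l + i), by simpa using hW, ?_, ?_, ?_⟩
      · have : m - i + i = m := by omega
        simp only [this]; exact hfm
      · have : m - i + i = m := by omega
        simp only [this, Nat.zero_add]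
        rw [← h]; exact hne
      · intro l hl
        have := hf (l + i) (by omega)
        have e : l + 1 + i = l + i + 1 := by omega
        simp only [e]; exact this
    · exact hmin i him ⟨f, hf0, hW, h, fun l hl => hf l (by omega)⟩
  refine ⟨m, f, hm2, hf0, hfm, hout, fun i hi => (hf i hi).1, ?_⟩
  intro i j hij hjm he
  refine hmin (m - (j - i)) (by omega) ⟨cut f i j, ?_, ?_, ?_, cut_step hf hij hjm he⟩
  · unfold cut; rw [if_pos (Nat.zero_le _)]; exact hf0
  · rw [cut_last hij hjm he]; exact hfm
  · rw [cut_last hij hjm he]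
    unfold cut; rw [if_pos (Nat.zero_le _)]; exact hne

omit [Fintype V] [DecidableEq V] in
theorem along {B : Finset (V × V)} {f : ℕ → V} {m : ℕ} (hf : ∀ i < m, (f i, f (i + 1)) ∈ B) :
    ∀ i j, i ≤ j → j ≤ m → Relation.ReflTransGen (fun x y => (x, y) ∈ B) (f i) (f j) := by
  intro i j hij
  induction j, hij using Nat.le_induction with
  | base => intro _; exact Relation.ReflTransGen.refl
  | succ j hj ih =>
    intro h
    exact (ih (by omega)).tail (hf j (by omega))

omit [Fintype V] [DecidableEq V] in
theorem alongR {B : Finset (V × V)} {f : ℕ → V} {m : ℕ} (hf : ∀ i < m, (f i, f (i + 1)) ∈ B)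
    (w : V) : ∀ i j, i ≤ j → j ≤ m → (∀ l, i ≤ l → l ≤ j → f l ≠ w) → R B w (f i) (f j) := by
  intro i j hij
  induction j, hij using Nat.le_induction with
  | base => intro _ _; exact Relation.ReflTransGen.refl
  | succ j hj ih =>
    intro h hw
    exact (ih (by omega) (fun l h1 h2 => hw l h1 (by omega))).tail
      ⟨hw j hj (by omega), hw (j + 1) (by omega) le_rfl, Or.inl (hf j (by omega))⟩

/-- the invariant -/
structure Inv (A : Finset (V × V)) (W : Finset V) (B : Finset (V × V)) : Prop where
  sub : B ⊆ A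
  strong : ∀ u ∈ W, ∀ v ∈ W, Relation.ReflTransGen (fun x y => (x, y) ∈ B) u v
  bic : ∀ w x y, x ∈ W → y ∈ W → x ≠ w → y ≠ w → R B w x y
  three : 3 ≤ W.card
  card : B.card + 3 ≤ 2 * W.card

/-- the arcs of a walk -/
def arcs (f : ℕ → V) (m : ℕ) : Finset (V × V) := (Finset.range m).image fun i => (f i, f (i + 1))

omit [Fintype V] in
theorem arcs_card (f : ℕ → V) (m : ℕ) : (arcs f m).card ≤ m := by
  unfold arcs
  exact Finset.card_image_le.trans (by simp)

omit [Fintype V] in
theorem mem_arcs (f : ℕ → V) (m : ℕ) : ∀ i < m, (f i, f (i + 1)) ∈ arcs f m := by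
  intro i hi
  unfold arcs
  exact Finset.mem_image.2 ⟨i, Finset.mem_range.2 hi, rfl⟩

omit [Fintype V] in
theorem arcs_sub {A : Finset (V × V)} {f : ℕ → V} {m : ℕ} (hf : ∀ i < m, (f i, f (i + 1)) ∈ A) :
    arcs f m ⊆ A := by
  intro e he
  unfold arcs at he
  obtain ⟨i, hi, rfl⟩ := Finset.mem_image.1 he
  exact hf i (Finset.mem_range.1 hi)

omit [Fintype V] in
/-- Directed cycles of length at least three satisfy the invariant. -/
theorem inv_cycle (A : Finset (V × V)) (f : ℕ → V) (m : ℕ) (hm : 2 ≤ m)
    (hf : ∀ i < m, (f i, f (i + 1)) ∈ A) (hinj : ∀ i j, i < j → j ≤ m → f i ≠ f j)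
    (hback : (f m, f 0) ∈ A) :
    Inv A ((Finset.range (m + 1)).image f) (insert (f m, f 0) (arcs f m)) := by
  have hc : ((Finset.range (m + 1)).image f).card = m + 1 := by
    rw [Finset.card_image_of_injOn]
    · simp
    · intro i hi j hj he
      have hi' : i < m + 1 := by simpa using hi
      have hj' : j < m + 1 := by simpa using hj
      rcases Nat.lt_trichotomy i j with h | h | h
      · exact absurd he (hinj i j h (by omega))
      · exact h
      · exact absurd he.symm (hinj j i h (by omega))
  have hf' : ∀ i < m, (f i, f (i + 1)) ∈ insert (f m, f 0) (arcs f m) := fun i hi =>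
    Finset.mem_insert_of_mem (mem_arcs f m i hi)
  refine ⟨?_, ?_, ?_, by omega, ?_⟩
  · intro e he
    rcases Finset.mem_insert.1 he with h | h
    · rw [h]; exact hback
    · exact arcs_sub hf h
  · intro u hu v hv
    obtain ⟨i, hi, rfl⟩ := Finset.mem_image.1 hu
    obtain ⟨j, hj, rfl⟩ := Finset.mem_image.1 hv
    have hi' : i < m + 1 := by simpa using hi
    have hj' : j < m + 1 := by simpa using hj
    exact ((along hf' i m (by omega) le_rfl).tail (Finset.mem_insert_self _ _)).trans
      (along hf' 0 j (Nat.zero_le _) (by omega))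
  · intro w x y hx hy hxw hyw
    obtain ⟨i, hi, rfl⟩ := Finset.mem_image.1 hx
    obtain ⟨j, hj, rfl⟩ := Finset.mem_image.1 hy
    have hi' : i < m + 1 := by simpa using hi
    have hj' : j < m + 1 := by simpa using hj
    -- wlog i ≤ j
    have key : ∀ i j, i ≤ j → j ≤ m → f i ≠ w → f j ≠ w →
        R (insert (f m, f 0) (arcs f m)) w (f i) (f j) := by
      intro i j hij hjm hiw hjw
      by_cases h : ∃ l, i ≤ l ∧ l ≤ j ∧ f l = w
      · obtain ⟨l, h1, h2, h3⟩ := h
        have hne : ∀ t, t ≤ m → t ≠ l → f t ≠ w := by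
          intro t ht htl he
          rcases Nat.lt_or_gt_of_ne htl with h | h
          · exact hinj t l h (by omega) (he.trans h3.symm)
          · exact hinj l t h ht (h3.trans he.symm)
        have hil : i < l := lt_of_le_of_ne h1 (fun h => hiw (h ▸ h3))
        have hlj : l < j := lt_of_le_of_ne h2 (fun h => hjw (h ▸ h3))
        have r1 := R_symm (alongR hf' w 0 i (Nat.zero_le _) (by omega)
          (fun t _ ht => hne t (by omega) (by omega)))
        have r2 := R_symm (alongR hf' w j m hjm le_rfl
          (fun t ht ht' => hne t ht' (by omega)))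
        exact (r1.tail ⟨hne 0 (by omega) (by omega), hne m le_rfl (by omega),
          Or.inr (Finset.mem_insert_self _ _)⟩).trans r2
      · push Not at h
        exact alongR hf' w i j hij hjm h
    rcases le_total i j with h | h
    · exact key i j h (by omega) hxw hyw
    · exact R_symm (key j i h (by omega) hyw hxw)
  · rw [hc]
    have := Finset.card_insert_le (f m, f 0) (arcs f m)
    have := arcs_card f m
    omega

omit [Fintype V] in
/-- Adding an ear preserves the invariant. -/
theorem inv_ear (A : Finset (V × V)) (W : Finset V) (B : Finset (V × V)) (hI : Inv A W B)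
    (m : ℕ) (f : ℕ → V) (hm : 2 ≤ m) (hf0 : f 0 ∈ W) (hfm : f m ∈ W)
    (hout : ∀ i, 0 < i → i < m → f i ∉ W)
    (hf : ∀ i < m, (f i, f (i + 1)) ∈ A) (hinj : ∀ i j, i < j → j ≤ m → f i ≠ f j) :
    Inv A (W ∪ (Finset.Ioo 0 m).image f) (B ∪ arcs f m) := by
  have hc : (W ∪ (Finset.Ioo 0 m).image f).card = W.card + (m - 1) := by
    rw [Finset.card_union_of_disjoint, Finset.card_image_of_injOn]
    · simp
    · intro i hi j hj he
      have hi' : 0 < i ∧ i < m := by simpa using hi
      have hj' : 0 < j ∧ j < m := by simpa using hj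
      rcases Nat.lt_trichotomy i j with h | h | h
      · exact absurd he (hinj i j h (by omega))
      · exact h
      · exact absurd he.symm (hinj j i h (by omega))
    · rw [Finset.disjoint_right]
      intro x hx
      obtain ⟨i, hi, rfl⟩ := Finset.mem_image.1 hx
      have hi' : 0 < i ∧ i < m := by simpa using hi
      exact hout i hi'.1 hi'.2
  have hf' : ∀ i < m, (f i, f (i + 1)) ∈ B ∪ arcs f m := fun i hi =>
    Finset.mem_union_right _ (mem_arcs f m i hi)
  have hBs : B ⊆ B ∪ arcs f m := Finset.subset_union_left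
  have strongB : ∀ u ∈ W, ∀ v ∈ W,
      Relation.ReflTransGen (fun x y => (x, y) ∈ B ∪ arcs f m) u v := fun u hu v hv =>
    Relation.ReflTransGen.mono (fun _ _ h => hBs h) _ _ (hI.strong u hu v hv)
  refine ⟨?_, ?_, ?_, by have := hI.three; omega, ?_⟩
  · exact Finset.union_subset hI.sub (arcs_sub hf)
  · have toW : ∀ u ∈ W ∪ (Finset.Ioo 0 m).image f,
        Relation.ReflTransGen (fun x y => (x, y) ∈ B ∪ arcs f m) u (f m) := by
      intro u hu
      rcases Finset.mem_union.1 hu with h | h
      · exact strongB u h _ hfm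
      · obtain ⟨i, hi, rfl⟩ := Finset.mem_image.1 h
        have hi' : 0 < i ∧ i < m := by simpa using hi
        exact along hf' i m (by omega) le_rfl
    have fromW : ∀ v ∈ W ∪ (Finset.Ioo 0 m).image f,
        Relation.ReflTransGen (fun x y => (x, y) ∈ B ∪ arcs f m) (f 0) v := by
      intro u hu
      rcases Finset.mem_union.1 hu with h | h
      · exact strongB _ hf0 u h
      · obtain ⟨i, hi, rfl⟩ := Finset.mem_image.1 h
        have hi' : 0 < i ∧ i < m := by simpa using hi
        exact along hf' 0 i (by omega) (by omega)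
    intro u hu v hv
    exact ((toW u hu).trans (strongB _ hfm _ hf0)).trans (fromW v hv)
  · intro w
    have toW : ∀ x ∈ W ∪ (Finset.Ioo 0 m).image f, x ≠ w →
        ∃ z ∈ W, z ≠ w ∧ R (B ∪ arcs f m) w x z := by
      intro x hx hxw
      rcases Finset.mem_union.1 hx with h | h
      · exact ⟨x, h, hxw, Relation.ReflTransGen.refl⟩
      · obtain ⟨i, hi, rfl⟩ := Finset.mem_image.1 h
        have hi' : 0 < i ∧ i < m := by simpa using hi
        by_cases h : ∃ l, l ≤ i ∧ f l = w
        · obtain ⟨l, h1, h2⟩ := h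
          have hli : l < i := lt_of_le_of_ne h1 (fun h => hxw (h ▸ h2))
          have hne : ∀ t, i ≤ t → t ≤ m → f t ≠ w := by
            intro t ht htm he
            exact hinj l t (by omega) htm (h2.trans he.symm)
          exact ⟨f m, hfm, hne m (by omega) le_rfl, alongR hf' w i m (by omega) le_rfl hne⟩
        · push Not at h
          exact ⟨f 0, hf0, h 0 (Nat.zero_le _),
            R_symm (alongR hf' w 0 i (Nat.zero_le _) (by omega) (fun t _ ht => h t ht))⟩
    intro x y hx hy hxw hyw
    obtain ⟨z, hz, hzw, hxz⟩ := toW x hx hxw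
    obtain ⟨z', hz', hzw', hyz'⟩ := toW y hy hyw
    exact (hxz.trans (R_mono hBs (hI.bic w z z' hz hz' hzw hzw'))).trans (R_symm hyz')
  · rw [hc]
    have h1 := Finset.card_union_le B (arcs f m)
    have h2 := arcs_card f m
    have h3 := hI.card
    omega

/-- A strongly biconnected digraph on at least three vertices has a spanning strongly biconnected
subdigraph with at most `2n - 3` arcs. -/
theorem exists_small (A : Finset (V × V)) (hl : ∀ v, (v, v) ∉ A) (hS : Strong A)
    (hB : ∀ w x y : V, x ≠ w → y ≠ w → R A w x y) (hn : 3 ≤ Fintype.card V) :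
    ∃ B ⊆ A, Strong B ∧ (∀ w x y : V, x ≠ w → y ≠ w → R B w x y) ∧
      B.card + 3 ≤ 2 * Fintype.card V := by
  classical
  -- the starting cycle
  have base : ∃ W B, Inv A W B := by
    obtain ⟨u, v, huv⟩ : ∃ u v : V, u ≠ v := Fintype.exists_pair_of_one_lt_card (by omega)
    obtain ⟨a, b, hab⟩ : ∃ a b, (a, b) ∈ A := by
      rcases Relation.ReflTransGen.cases_head (hS u v) with h | ⟨c, h, _⟩
      · exact absurd h huv
      · exact ⟨u, c, h⟩
    have hne : a ≠ b := fun h => hl a (by rw [← h] at hab; exact hab)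
    by_cases hba : (b, a) ∈ A
    · obtain ⟨c, hc⟩ : ∃ c, c ∉ ({a, b} : Finset V) := by
        by_contra h
        push Not at h
        have : Fintype.card V ≤ ({a, b} : Finset V).card := by
          rw [← Finset.card_univ]
          exact Finset.card_le_card (fun x _ => h x)
        have := Finset.card_le_two (a := a) (b := b)
        omega
      obtain ⟨m, f, hm, hf0, hfm, hout, hf, hinj⟩ :=
        ear A hS hB {a, b} a b (by simp) (by simp) hne c hc
      refine ⟨_, _, inv_cycle A f m hm hf hinj ?_⟩
      have h0m := hinj 0 m (by omega) le_rfl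
      rcases Finset.mem_insert.1 hf0 with h | h <;> rcases Finset.mem_insert.1 hfm with h' | h'
      · exact absurd (h.trans h'.symm) h0m
      · rw [h, Finset.mem_singleton.1 h']; exact hba
      · rw [Finset.mem_singleton.1 h, h']; exact hab
      · exact absurd ((Finset.mem_singleton.1 h).trans (Finset.mem_singleton.1 h').symm) h0m
    · let P : ℕ → Prop := fun m => ∃ f : ℕ → V, f 0 = b ∧ f m = a ∧ ∀ i < m, (f i, f (i + 1)) ∈ A
      have hex : ∃ m, P m := exists_fun (hS b a)
      obtain ⟨m, ⟨f, h0, hm, hf⟩, hmin⟩ : ∃ m, P m ∧ ∀ m' < m, ¬ P m' :=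
        ⟨Nat.find hex, Nat.find_spec hex, fun m' h => Nat.find_min hex h⟩
      have hm2 : 2 ≤ m := by
        by_contra h
        have : m = 0 ∨ m = 1 := by omega
        rcases this with h | h
        · subst h; exact hne (hm.symm.trans h0)
        · subst h
          have := hf 0 (by omega)
          rw [h0] at this
          simp only [Nat.zero_add] at this
          rw [hm] at this
          exact hba this
      refine ⟨_, _, inv_cycle A f m hm2 hf ?_ (by rw [h0, hm]; exact hab)⟩
      intro i j hij hjm he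
      refine hmin (m - (j - i)) (by omega) ⟨cut f i j, ?_, ?_,
        cut_step (r := fun x y => (x, y) ∈ A) hf hij hjm he⟩
      · unfold cut; rw [if_pos (Nat.zero_le _)]; exact h0
      · rw [cut_last hij hjm he]; exact hm
  -- a maximal one
  let Q : ℕ → Prop := fun t => ∃ W B, Inv A W B ∧ W.card = t
  have hQ : ∃ t, Q t := by
    obtain ⟨W, B, h⟩ := base
    exact ⟨W.card, W, B, h, rfl⟩
  have hbd : ∀ t, Q t → t ≤ Fintype.card V := by
    rintro t ⟨W, B, _, rfl⟩
    exact Finset.card_le_univ W
  obtain ⟨t, ht, hmax⟩ : ∃ t, Q t ∧ ∀ t', Q t' → t' ≤ t := by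
    obtain ⟨t0, ht0⟩ := hQ
    refine ⟨Nat.findGreatest Q (Fintype.card V), Nat.findGreatest_spec (hbd t0 ht0) ht0, ?_⟩
    intro t' ht'
    exact Nat.le_findGreatest (hbd t' ht') ht'
  obtain ⟨W, B, hI, hWt⟩ := ht
  have hW : W = Finset.univ := by
    by_contra hne
    obtain ⟨v0, hv0⟩ : ∃ v0, v0 ∉ W := by
      by_contra h
      push Not at h
      exact hne (Finset.eq_univ_iff_forall.2 h)
    obtain ⟨a, ha, b, hb, hab⟩ := Finset.one_lt_card.1 (show 1 < W.card by have := hI.three; omega)
    obtain ⟨m, f, hm, hf0, hfm, hout, hf, hinj⟩ := ear A hS hB W a b ha hb hab v0 hv0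
    have hI' := inv_ear A W B hI m f hm hf0 hfm hout hf hinj
    have h1 := hmax _ ⟨_, _, hI', rfl⟩
    have h2 : W.card < (W ∪ (Finset.Ioo 0 m).image f).card := by
      apply Finset.card_lt_card
      refine ⟨Finset.subset_union_left, fun h => ?_⟩
      exact hout 1 (by omega) (by omega)
        (h (Finset.mem_union_right _ (Finset.mem_image.2 ⟨1, by simp; omega, rfl⟩)))
    omega
  subst hW
  refine ⟨B, hI.sub, fun u v => hI.strong u (Finset.mem_univ _) v (Finset.mem_univ _),
    fun w x y hx hy => hI.bic w x y (Finset.mem_univ _) (Finset.mem_univ _) hx hy, ?_⟩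
  have := hI.card
  rwa [Finset.card_univ] at this

/-- Every minimal strongly biconnected digraph on `n` vertices has at most `2n` arcs, and even at
most `2n - 3` arcs if `n ≥ 3`. -/
theorem result {V : Type} [Fintype V] [DecidableEq V] (A : Finset (V × V))
    (hl : ∀ v : V, (v, v) ∉ A) (hA : MinimalSB A) :
    A.card ≤ 2 * Fintype.card V ∧ (3 ≤ Fintype.card V → A.card + 3 ≤ 2 * Fintype.card V) := by
  have main : 3 ≤ Fintype.card V → A.card + 3 ≤ 2 * Fintype.card V := by
    intro hn
    obtain ⟨⟨hS, hB⟩, hmin⟩ := hA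
    obtain ⟨B, hBA, hBS, hBB, hBc⟩ := exists_small A hl hS (fun w => (pre_iff A hl w).1 (hB w)) hn
    have hEq : B = A := by
      by_contra hne
      obtain ⟨e, heA, heB⟩ : ∃ e ∈ A, e ∉ B := by
        by_contra h
        push Not at h
        exact hne (Finset.Subset.antisymm hBA h)
      have hsub : B ⊆ A.erase e := fun x hx =>
        Finset.mem_erase.2 ⟨fun h => heB (h ▸ hx), hBA hx⟩
      have hl' : ∀ v : V, (v, v) ∉ A.erase e := fun v h => hl v (Finset.mem_of_mem_erase h)
      refine hmin e heA ⟨fun u v => ?_, fun w => ?_⟩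
      · exact Relation.ReflTransGen.mono (fun _ _ h => hsub h) _ _ (hBS u v)
      · exact (pre_iff _ hl' w).2 (fun x y hx hy => R_mono hsub (hBB w x y hx hy))
    rw [← hEq]; exact hBc
  refine ⟨?_, main⟩
  rcases Nat.lt_or_ge (Fintype.card V) 3 with h | h
  · -- at most two vertices: at most n(n-1) arcs
    have h1 : A ⊆ (Finset.univ : Finset V).offDiag := by
      intro e he
      rw [Finset.mem_offDiag]
      refine ⟨Finset.mem_univ _, Finset.mem_univ _, fun h => ?_⟩
      apply hl e.1
      have : e = (e.1, e.1) := Prod.ext rfl h.symm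
      rwa [← this]
    have h2 := Finset.card_le_card h1
    rw [Finset.offDiag_card, Finset.card_univ] at h2
    have h3 : Fintype.card V = 0 ∨ Fintype.card V = 1 ∨ Fintype.card V = 2 := by omega
    rcases h3 with h3 | h3 | h3 <;> rw [h3] at h2 ⊢ <;> omega
  · have := main h
    omega

end Pool.Agent.Results.MP_5e4462_co.TwoNMinusThree
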